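import Mathlib

/-!
# Simple polygons and their Alexandrov gluings

The definitions used in the final statement.
-/

set_option autoImplicit false

namespace Pool.Agent.MP33

open Real

/-! ### Boundaries with angles -/

/-- Boundary data: `n` edges, positions `v 0 < ... < v n` of the vertices along the boundary, cut
open at the vertex `0`, and angles `al i` of the vertices.  (In the final statement `G` is `ℝ`.) -/
structure PD (G : Type) where
  n : ℕ
  v : ℕ → G
  al : ℕ → ℝ

open Classical in
/-- The angle at the boundary point `x`: `al i` at the vertex `i`, and `π` at the points which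
are not vertices. -/
noncomputable def PD.ang {G : Type} (D : PD G) (x : G) : ℝ :=
  if h : ∃ i, i ≤ D.n ∧ D.v i = x then D.al h.choose else π

/-! ### Gluings -/

/-- A gluing of the boundary circle of a polygon with boundary data `D` (the circle is
`[v 0, v n]` with `v n` identified with `v 0`): the circle is cut into `m` segments
`[b i, b (i + 1)]`, `i < m`, and the segment `i` is matched with the segment `mu i` by the length
preserving map which reverses the orientation. -/
structure Gluing (D : PD ℝ) where
  m : ℕ
  b : ℕ → ℝ
  mu : ℕ → ℕ
  b_zero : b 0 = D.v 0
  b_last : b m = D.v D.n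
  b_lt : ∀ i < m, b i < b (i + 1)
  /-- every vertex of the polygon is an end of a segment -/
  vert : ∀ k ≤ D.n, ∃ i ≤ m, b i = D.v k
  mu_lt : ∀ i < m, mu i < m
  mu_mu : ∀ i < m, mu (mu i) = i
  mu_ne : ∀ i < m, mu i ≠ i
  /-- matched segments have the same length -/
  len : ∀ i < m, b (i + 1) - b i = b (mu i + 1) - b (mu i)

/-- The identifications of the points `b 0, ..., b (m - 1)` (`b m` is `b 0`): the segments `i` and
`mu i` are glued such that the end `b (i + 1)` of the first one is identified with the start
`b (mu i)` of the second one.  (For `mu i` in place of `i` this also says that the start `b i` of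
the first one is identified with the end `b (mu i + 1)` of the second one.) -/
def Gluing.Rel {D : PD ℝ} (g : Gluing D) (x y : Fin g.m) : Prop :=
  ∃ i < g.m, x.val = (i + 1) % g.m ∧ y.val = g.mu i

/-- The vertices of the glued surface: the classes of the points `b 0, ..., b (m - 1)`. -/
def Gluing.Vertex {D : PD ℝ} (g : Gluing D) : Type := Quot g.Rel

/-- The Euler characteristic of the glued surface: the number of vertices, minus the number
`m / 2` of edges, plus one face. -/
noncomputable def Gluing.eulerChar {D : PD ℝ} (g : Gluing D) : ℚ :=
  Nat.card g.Vertex - g.m / 2 + 1

open Classical in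
/-- The sum of the angles of the polygon at the boundary points which are identified to the
vertex `q` of the glued surface. -/
noncomputable def Gluing.angleSum {D : PD ℝ} (g : Gluing D) (q : g.Vertex) : ℝ :=
  ∑ j : Fin g.m with Quot.mk g.Rel j = q, D.ang (g.b j)

/-- An Alexandrov gluing: the glued surface, which is closed, connected and orientable, has Euler
characteristic two, that is, it is a sphere, and the sum of the angles at each of its points is
at most `2 π` (this is clear for the points which are not vertices of the surface: they have
angle `π + π` or are interior points of the polygon). -/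
structure Gluing.IsAlexandrov {D : PD ℝ} (g : Gluing D) : Prop where
  sphere : g.eulerChar = 2
  angle_le : ∀ q : g.Vertex, g.angleSum q ≤ 2 * π

/-! ### Polygons -/

/-- `z 0, z 1, ..., z (n - 1)` are the vertices of a simple polygon, listed in cyclic order
(in one of the two directions); its edges are the segments from `z i` to `z (i + 1)`. -/
structure IsSimplePolygon {n : ℕ} (z : ZMod n → ℂ) : Prop where
  three : 3 ≤ n
  inj : Function.Injective z
  /-- different edges meet only in a common end (and then are consecutive) -/
  simple : ∀ i j : ZMod n, i ≠ j → ∀ x ∈ segment ℝ (z i) (z (i + 1)),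
    x ∈ segment ℝ (z j) (z (j + 1)) → (j = i + 1 ∧ x = z j) ∨ (i = j + 1 ∧ x = z i)

/-- The counterclockwise angle from `a` to `b`, in `[0, 2 π)`. -/
noncomputable def ccwAngle (a b : ℂ) : ℝ :=
  if 0 ≤ (b / a).arg then (b / a).arg else (b / a).arg + 2 * π

/-- The angle to the left of the boundary at the vertex `z i`: the angle by which the direction
of the edge from `z i` to `z (i + 1)` has to be turned counterclockwise to get the direction from
`z i` to `z (i - 1)`, in `[0, 2 π)`. -/
noncomputable def leftAngle {n : ℕ} (z : ZMod n → ℂ) (i : ZMod n) : ℝ :=
  ccwAngle (z (i + 1) - z i) (z (i - 1) - z i)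

/-- The total turning of the boundary.  For a simple polygon it is `2 π` if the vertices are
listed counterclockwise and `-2 π` if they are listed clockwise. -/
noncomputable def turning {n : ℕ} (z : ZMod n → ℂ) : ℝ :=
  ∑ i ∈ Finset.range n, (π - leftAngle z i)

/-- The interior angle at the vertex `z i`: the interior is to the left of the boundary if the
vertices are listed counterclockwise, and to the right otherwise. -/
noncomputable def intAngle {n : ℕ} (z : ZMod n → ℂ) (i : ZMod n) : ℝ :=
  if 0 < turning z then leftAngle z i else 2 * π - leftAngle z i

/-- The boundary data of a polygon, cut open at the vertex `z 0`: the vertex `z k` has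
position `|z 1 - z 0| + ... + |z k - z (k - 1)|`.  The position `v n` is another copy of the
position `v 0`; the angle of this vertex is taken into account at `0` and not at `n`. -/
noncomputable def bdry {n : ℕ} (z : ZMod n → ℂ) : PD ℝ where
  n := n
  v := fun k => ∑ i ∈ Finset.range k, ‖z (i + 1) - z i‖
  al := fun k => if k < n then intAngle z k else 0

/-- The polygon has an Alexandrov gluing. -/
def Foldable {n : ℕ} (z : ZMod n → ℂ) : Prop := ∃ g : Gluing (bdry z), g.IsAlexandrov

/-- The list of the coordinates of the vertices. -/
def coords {n : ℕ} (z : ZMod n → ℂ) : List ℝ :=
  (List.range n).flatMap (fun i : ℕ => [(z i).re, (z i).im])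

end Pool.Agent.MP33
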