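import Pool.Agent.Work.MP_33efdc_lc.Bd.B01

/-!
# Alexandrov gluings, written out
-/

set_option autoImplicit false

namespace Pool.Agent.MP33

open Real

/-- A gluing of the boundary circle of a polygon with boundary data `D` (the circle is
`[v 0, v n]` with `v n` identified with `v 0`): the circle is cut into `m` segments
`[b i, b (i+1)]`, the segment `i` is matched with the segment `mu i` by the length preserving map
which reverses the orientation.  The matched pairs do not cross, i.e. the quotient of the
polygon is a sphere. -/
structure PlanarGluing (D : PD ℝ) where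
  m : ℕ
  b : ℕ → ℝ
  mu : ℕ → ℕ
  b_zero : b 0 = D.v 0
  b_last : b m = D.v D.n
  b_lt : ∀ i < m, b i < b (i + 1)
  /-- every vertex is an end of a segment -/
  vert : ∀ k ≤ D.n, ∃ i ≤ m, b i = D.v k
  mu_lt : ∀ i < m, mu i < m
  mu_mu : ∀ i < m, mu (mu i) = i
  mu_ne : ∀ i < m, mu i ≠ i
  len : ∀ i < m, b (i + 1) - b i = b (mu i + 1) - b (mu i)
  planar : ∀ i j, i < j → j < mu i → mu i < m → i < mu j ∧ mu j < mu i

/-- The identifications of the ends of the segments: the end `i + 1` of segment `i` is
identified with the start `mu i` of segment `mu i`.  (For `mu i` in place of `i` this also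
identifies the start `i` of segment `i` with the end `mu i + 1` of segment `mu i`.) -/
def PlanarGluing.Rel {D : PD ℝ} (g : PlanarGluing D) (x y : ℕ) : Prop :=
  ∃ i < g.m, x = (i + 1) % g.m ∧ y = g.mu i

open Classical in
/-- The sum of the angles of the polygon at the points identified with the point `b i`. -/
noncomputable def PlanarGluing.angleSum {D : PD ℝ} (g : PlanarGluing D) (i : ℕ) : ℝ :=
  ∑ j ∈ Finset.range g.m with Relation.EqvGen g.Rel i j, D.ang (g.b j)

/-- An Alexandrov gluing: every point of the quotient has angle at most `2 π`.  (The points which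
are not ends of segments have angle `π + π`.) -/
def PlanarGluing.IsAlexandrov {D : PD ℝ} (g : PlanarGluing D) : Prop :=
  ∀ i < g.m, g.angleSum i ≤ 2 * π

end Pool.Agent.MP33
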