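import Pool.Agent.Work.MP_33efdc_lc.Bd.B04

/-!
# The table is computable in polynomial time on the real RAM
-/

set_option autoImplicit false

namespace Pool.Agent.MP33

open Real Pool.Agent.RRAM

/-- Positions as a function. -/
noncomputable def gV (v : List ℝ) (i : ℕ) : ℝ := v.getD i 0

/-- Angles as a function. -/
noncomputable def gA (w : List AN) (i : ℕ) : AN := w.getD i (0, 1, 0)

/-- The test for nodes with lists as data. -/
noncomputable def nodeC (v : List ℝ) (T : List (List ENT)) (i j : ℕ) : Bool :=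
  nodeT (gV v) (getL T) (getG T) i j

/-- New angles with lists as data. -/
noncomputable def newGC (v : List ℝ) (w : List AN) (T : List (List ENT)) (i k : ℕ) : Option AN :=
  newG (gV v) (gA w) (getL T) (getG T) i k

/-- New intervals with lists as data. -/
noncomputable def rawLC (v : List ℝ) (T : List (List ENT)) (a b : ℕ) : List IV :=
  rawL (gV v) (getL T) (getG T) a b

/-- New intervals with lists as data. -/
noncomputable def newLC (B : ℕ) (v : List ℝ) (T : List (List ENT)) (a k : ℕ) : List IV :=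
  newL B (gV v) (getL T) (getG T) a k

section

variable {α : Type} [Enc α]

@[fun_prop]
theorem ptf_gV {v : α → List ℝ} {i : α → ℕ} (hv : PTF v) (hi : PTF i) :
    PTF (fun a => gV (v a) (i a)) := by
  unfold gV; fun_prop

@[fun_prop]
theorem ptf_gA {w : α → List AN} {i : α → ℕ} (hw : PTF w) (hi : PTF i) :
    PTF (fun a => gA (w a) (i a)) := by
  unfold gA; fun_prop

@[fun_prop]
theorem ptf_nodeC {v : α → List ℝ} {T : α → List (List ENT)} {i j : α → ℕ} (hv : PTF v)
    (hT : PTF T) (hi : PTF i) (hj : PTF j) : PTF (fun a => nodeC (v a) (T a) (i a) (j a)) := by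
  unfold nodeC nodeT; fun_prop

@[fun_prop]
theorem ptf_newGC {v : α → List ℝ} {w : α → List AN} {T : α → List (List ENT)} {i k : α → ℕ}
    (hv : PTF v) (hw : PTF w) (hT : PTF T) (hi : PTF i) (hk : PTF k) :
    PTF (fun a => newGC (v a) (w a) (T a) (i a) (k a)) := by
  unfold newGC newG; fun_prop

@[fun_prop]
theorem ptf_rawLC {v : α → List ℝ} {T : α → List (List ENT)} {i j : α → ℕ} (hv : PTF v)
    (hT : PTF T) (hi : PTF i) (hj : PTF j) : PTF (fun a => rawLC (v a) (T a) (i a) (j a)) := by
  have e : (fun a => rawLC (v a) (T a) (i a) (j a)) = (fun a =>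
    (if nodeC (v a) (T a) (i a + 1) (j a) then
      [(gV (v a) (i a + 1) + gV (v a) (j a), gV (v a) (i a + 1) + gV (v a) (j a))] else []) ++
    ((List.range (j a - i a)).flatMap (fun d => if grpT (getG (T a) (i a + 1) (i a + 1 + d)) then
      (getL (T a) (i a + 1 + d) (j a)).filterMap
        (fun I => clipHi (gV (v a) (i a + 1 + d) + gV (v a) (j a + 1))
          (gV (v a) (i a + 1) - gV (v a) (i a + 1 + d)) I) else []) ++
    (List.range (j a - i a)).flatMap (fun d => if grpT (getG (T a) (i a + d + 1) (j a)) then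
      (getL (T a) (i a) (i a + d)).filterMap (fun I =>
        clipLo (gV (v a) (i a) + gV (v a) (i a + d + 1))
          (gV (v a) (j a) - gV (v a) (i a + d + 1)) I) else []))) := rfl
  rw [e]
  fun_prop

@[fun_prop]
theorem ptf_newLC {B : α → ℕ} {v : α → List ℝ} {T : α → List (List ENT)} {i k : α → ℕ}
    (hB : PTF B) (hv : PTF v) (hT : PTF T) (hi : PTF i) (hk : PTF k) :
    PTF (fun a => newLC (B a) (v a) (T a) (i a) (k a)) := by
  have e : (fun a => newLC (B a) (v a) (T a) (i a) (k a)) = (fun a =>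
    if k a = 0 then [(gV (v a) (i a) + gV (v a) (i a), gV (v a) (i a + 1) + gV (v a) (i a + 1))]
    else nub (B a) (rawLC (v a) (T a) (i a) (i a + k a))) := rfl
  rw [e]
  fun_prop

theorem sz_list_le {β : Type} [Enc β] {l : List β} {c : ℕ} (h : ∀ x ∈ l, sz x ≤ c) :
    sz l ≤ l.length * (c + 1) + 1 := by
  induction l with
  | nil => rw [sz_nil]; omega
  | cons x l ih =>
    have h1 := ih (fun y hy => h y (by simp [hy]))
    have h2 := h x (by simp)
    rw [sz_cons, List.length_cons, Nat.succ_mul]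
    omega

theorem sz_AN_le {x : AN} (h : x.1 ≤ 2) : sz x ≤ 9 := by
  obtain ⟨m, c, s⟩ := x
  dsimp only at h
  show sz (m, (c, s)) ≤ 9
  rw [sz_pair, sz_pair, sz_nat]
  have h1 : sz c = 1 := rfl
  have h2 : sz s = 1 := rfl
  omega

theorem leAN_fst {x : AN} (h : leAN x (2, 1, 0) = true) : x.1 ≤ 2 := by
  unfold leAN at h
  rw [Bool.or_eq_true, Bool.and_eq_true, decide_eq_true_iff, decide_eq_true_iff] at h
  rcases h with h | ⟨h, _⟩
  · exact h.le
  · exact h.le

theorem newG_fst {V : ℕ → ℝ} {A : ℕ → AN} {L : ℕ → ℕ → List IV} {G : ℕ → ℕ → Option AN} {i k : ℕ}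
    {x : AN} (h : newG V A L G i k = some x) : x.1 ≤ 2 := by
  unfold newG at h
  split_ifs at h with h1
  · obtain ⟨rfl, h2⟩ := capAN_eq.1 h
    exact leAN_fst h2
  · have h2 := minL_mem h
    rw [List.mem_filterMap] at h2
    obtain ⟨d, _, h3⟩ := h2
    split_ifs at h3 with h4
    rw [Option.bind_eq_some_iff] at h3
    obtain ⟨y, _, h5⟩ := h3
    obtain ⟨rfl, h6⟩ := capAN_eq.1 h5
    exact leAN_fst h6

theorem newL_sz {B : ℕ} {V : ℕ → ℝ} {L : ℕ → ℕ → List IV} {G : ℕ → ℕ → Option AN} {a k : ℕ} :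
    sz (newL B V L G a k) ≤ 4 * B + 5 := by
  have h1 : (newL B V L G a k).length ≤ B + 1 := by
    unfold newL
    split_ifs
    · simp
    · exact (nub_length _ _).trans (by omega)
  have h2 := sz_list_le (l := newL B V L G a k) (c := 3) (fun x _ => (sz_IV x).le)
  have h3 : (newL B V L G a k).length * (3 + 1) ≤ (B + 1) * 4 := Nat.mul_le_mul_right _ h1
  omega

theorem sz_ENT {B : ℕ} {V : ℕ → ℝ} {A : ℕ → AN} {L : ℕ → ℕ → List IV}
    {G : ℕ → ℕ → Option AN} {a k : ℕ} :
    sz ((newL B V L G a k, newG V A L G a k) : ENT) ≤ 4 * B + 17 := by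
  rw [sz_pair]
  have h1 := newL_sz (B := B) (V := V) (L := L) (G := G) (a := a) (k := k)
  have h2 : sz (newG V A L G a k) ≤ 11 := by
    cases h : newG V A L G a k with
    | none => rw [sz_none]; omega
    | some x => rw [sz_some]; have := sz_AN_le (newG_fst h); omega
  omega

/-- One more row, with lists as data. -/
noncomputable def stepC (B n : ℕ) (v : List ℝ) (w : List AN) (T : List (List ENT)) :
    List (List ENT) := stepT B n (gV v) (gA w) T

@[fun_prop]
theorem ptf_stepC {B n : α → ℕ} {v : α → List ℝ} {w : α → List AN} {T : α → List (List ENT)}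
    (hB : PTF B) (hn : PTF n) (hv : PTF v) (hw : PTF w) (hT : PTF T) :
    PTF (fun a => stepC (B a) (n a) (v a) (w a) (T a)) := by
  have e : (fun a => stepC (B a) (n a) (v a) (w a) (T a)) = (fun a =>
    T a ++ [(List.range (n a + 1)).map (fun i => (newLC (B a) (v a) (T a) i (T a).length,
      newGC (v a) (w a) (T a) i (T a).length))]) := rfl
  rw [e]
  fun_prop

theorem stepC_sz (B n : ℕ) (v : List ℝ) (w : List AN) (T : List (List ENT)) :
    sz (stepC B n v w T) ≤ sz T + ((n + 1) * (4 * B + 18) + 2) := by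
  unfold stepC stepT
  have h1 := sz_append T [(List.range (n + 1)).map (fun a =>
    ((newL B (gV v) (getL T) (getG T) a T.length,
      newG (gV v) (gA w) (getL T) (getG T) a T.length) : ENT))]
  have h2 := sz_list_le (l := (List.range (n + 1)).map (fun a =>
    ((newL B (gV v) (getL T) (getG T) a T.length,
      newG (gV v) (gA w) (getL T) (getG T) a T.length) : ENT))) (c := 4 * B + 17) (by
      intro x hx
      rw [List.mem_map] at hx
      obtain ⟨a, _, rfl⟩ := hx
      exact sz_ENT)
  rw [List.length_map, List.length_range] at h2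
  rw [sz_cons, sz_nil] at h1
  have e18 : 4 * B + 17 + 1 = 4 * B + 18 := rfl
  rw [e18] at h2
  omega

@[fun_prop]
theorem ptf_NN {n : α → ℕ} (hn : PTF n) (k : ℕ) : PTF (fun a => NN (n a) k) := by
  induction k with
  | zero => exact PTF.const 2
  | succ k ih =>
    have h : PTF (fun a => 2 + n a ^ 4 * (2 * NN (n a) k)) := by fun_prop
    exact h.congr (fun a => by rw [NN])

@[fun_prop]
theorem ptf_EB {n : α → ℕ} (hn : PTF n) : PTF (fun a => EB (n a)) := by
  have h : PTF (fun a => 2 + n a ^ 2 * NN (n a) 4) := by fun_prop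
  exact h.congr (fun a => by rw [EB])

/-- The table with lists as data. -/
noncomputable def tableC (n : ℕ) (v : List ℝ) (w : List AN) : List (List ENT) :=
  table n (gV v) (gA w)

theorem tableC_eq (n : ℕ) (v : List ℝ) (w : List AN) :
    tableC n v w = (fun s => stepC (EB n ^ 2) n v w s)^[n + 1] [] := by
  unfold tableC table stepC; rfl

theorem pb_nat {n : α → ℕ} (hn : PTF n) : PB n :=
  hn.size.mono (fun a => by rw [sz_nat]; omega)

theorem ptf_EB2 {n : α → ℕ} (hn : PTF n) : PTF (fun a => EB (n a) ^ 2) :=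
  PTF.pow_const (ptf_EB hn) 2

theorem pb_Q {n : α → ℕ} (hn : PTF n) :
    PB (fun a => (n a + 1) * (4 * EB (n a) ^ 2 + 18) + 2) :=
  ((((pb_nat hn).add (PB.const 1)).mul
    (((PB.const 4).mul (pb_nat (ptf_EB2 hn))).add (PB.const 18))).add (PB.const 2))

theorem ptf_tabStep {n : α → ℕ} {v : α → List ℝ} {w : α → List AN} (hn : PTF n) (hv : PTF v)
    (hw : PTF w) : PTF (fun p : α × List (List ENT) =>
      stepC (EB (n p.1) ^ 2) (n p.1) (v p.1) (w p.1) p.2) :=
  ptf_stepC (ptf_EB2 (hn.comp PTF.fst)) (hn.comp PTF.fst) (hv.comp PTF.fst) (hw.comp PTF.fst)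
    PTF.snd

@[fun_prop]
theorem ptf_tableC {n : α → ℕ} {v : α → List ℝ} {w : α → List AN} (hn : PTF n) (hv : PTF v)
    (hw : PTF w) : PTF (fun a => tableC (n a) (v a) (w a)) := by
  have h := PTF.nat_iterate_add (n := fun a => n a + 1) (init := fun _ => ([] : List (List ENT)))
    hn.succ (PTF.const []) (ptf_tabStep hn hv hw) _ (pb_Q hn)
    (fun a s => stepC_sz (EB (n a) ^ 2) (n a) (v a) (w a) s)
  exact h.congr (fun a => (tableC_eq (n a) (v a) (w a)).symm)

@[fun_prop]
theorem ptf_answer {n : α → ℕ} {v : α → List ℝ} {w : α → List AN} (hn : PTF n) (hv : PTF v)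
    (hw : PTF w) : PTF (fun a => answer (n a) (gV (v a)) (gA (w a))) := by
  have e : (fun a => answer (n a) (gV (v a)) (gA (w a))) =
    (fun a => nodeC (v a) (tableC (n a) (v a) (w a)) 0 (n a)) := rfl
  rw [e]
  fun_prop

@[fun_prop]
theorem ptf_vecR {p q r s : α → ℝ} (hp : PTF p) (hq : PTF q) (hr : PTF r) (hs : PTF s) :
    PTF (fun a => vecR (p a) (q a) (r a) (s a)) := by
  unfold vecR; fun_prop

@[fun_prop]
theorem ptf_cx {x : α → List ℝ} {i : α → ℕ} (hx : PTF x) (hi : PTF i) :
    PTF (fun a => cx (x a) (i a)) := by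
  unfold cx; fun_prop

@[fun_prop]
theorem ptf_cy {x : α → List ℝ} {i : α → ℕ} (hx : PTF x) (hi : PTF i) :
    PTF (fun a => cy (x a) (i a)) := by
  unfold cy; fun_prop

@[fun_prop]
theorem ptf_distL {x : α → List ℝ} {n i : α → ℕ} (hx : PTF x) (hn : PTF n) (hi : PTF i) :
    PTF (fun a => distL (x a) (n a) (i a)) := by
  unfold distL; fun_prop

theorem ptf_psum {x : α → List ℝ} {n k : α → ℕ} (hx : PTF x) (hn : PTF n) (hk : PTF k) :
    PTF (fun a => (List.range (k a)).foldl (fun s i => s + distL (x a) (n a) i) 0) := by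
  refine PTF.foldl_add (l := fun a => List.range (k a)) (init := fun _ => (0 : ℝ))
    (step := fun p : α × (ℝ × ℕ) => p.2.1 + distL (x p.1) (n p.1) p.2.2) (by fun_prop)
    (PTF.const 0) (by fun_prop) (fun _ => 0) (PB.const 0) (fun a s b _ => ?_)
  show (1 : ℕ) ≤ 1 + 0
  omega

@[fun_prop]
theorem ptf_posL {x : α → List ℝ} {n : α → ℕ} (hx : PTF x) (hn : PTF n) :
    PTF (fun a => posL (x a) (n a)) := by
  unfold posL
  refine PTF.map' ?_ (by fun_prop)
  exact ptf_psum (x := fun p : α × ℕ => x p.1) (n := fun p => n p.1) (k := fun p => p.2)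
    (by fun_prop) (by fun_prop) (by fun_prop)

@[fun_prop]
theorem ptf_langL {x : α → List ℝ} {n i : α → ℕ} (hx : PTF x) (hn : PTF n) (hi : PTF i) :
    PTF (fun a => langL (x a) (n a) (i a)) := by
  unfold langL; fun_prop

@[fun_prop]
theorem ptf_rangL {x : α → List ℝ} {n i : α → ℕ} (hx : PTF x) (hn : PTF n) (hi : PTF i) :
    PTF (fun a => rangL (x a) (n a) (i a)) := by
  unfold rangL; fun_prop

theorem normAN_fst (m : ℕ) (c s : ℝ) : (normAN m c s).1 ≤ m + 1 := by
  unfold normAN
  split_ifs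
  · exact le_refl _
  · exact Nat.le_succ m

theorem sz_AN (x : AN) : sz x = 2 * x.1 + 5 := by
  obtain ⟨m, c, s⟩ := x
  show sz (m, (c, s)) = _
  rw [sz_pair, sz_pair, sz_nat]
  have h1 : sz c = 1 := rfl
  have h2 : sz s = 1 := rfl
  dsimp only
  omega

@[fun_prop]
theorem ptf_sumL {x : α → List ℝ} {n : α → ℕ} (hx : PTF x) (hn : PTF n) :
    PTF (fun a => sumL (x a) (n a)) := by
  unfold sumL
  refine PTF.foldl_add (l := fun a => List.range (n a)) (init := fun _ => ((0, 1, 0) : AN))
    (step := fun p : α × (AN × ℕ) => addAN p.2.1 (langL (x p.1) (n p.1) p.2.2)) (by fun_prop)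
    (PTF.const _) (by fun_prop) (fun _ => 4) (PB.const 4) (fun a s b _ => ?_)
  show sz (addAN s (langL (x a) (n a) b)) ≤ _
  have h1 : (langL (x a) (n a) b).1 ≤ 1 := normAN_fst 0 _ _
  have h2 : (addAN s (langL (x a) (n a) b)).1 ≤ s.1 + (langL (x a) (n a) b).1 + 1 :=
    normAN_fst _ _ _
  rw [sz_AN, sz_AN]
  omega

@[fun_prop]
theorem ptf_angL {x : α → List ℝ} {n : α → ℕ} (hx : PTF x) (hn : PTF n) :
    PTF (fun a => angL (x a) (n a)) := by
  unfold angL; fun_prop

end

/-- **The decision function is computable in polynomial time.** -/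
theorem ptf_decideFold : PTF decideFold := by
  have e : decideFold = (fun x : List ℝ => answer (x.length / 2) (gV (posL x (x.length / 2)))
    (gA (angL x (x.length / 2)))) := rfl
  rw [e]
  fun_prop

open Classical in
/-- Alexandrov foldability of simple polygons is decided in polynomial time on the real RAM. -/
theorem foldable_polytime : ∃ (P : List Instr) (k : ℕ), ∀ (n : ℕ) (z : ZMod n → ℂ),
    IsSimplePolygon z → Answers P (coords z) (n ^ k) (decide (Foldable z)) := by
  obtain ⟨P, k, h⟩ := ptf_decideFold.answers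
  refine ⟨P, 2 * k, fun n z hz => ?_⟩
  have h1 := h (coords z)
  rw [coords_length] at h1
  have h3 := hz.three
  obtain ⟨t, ht, h2⟩ := h1
  refine ⟨t, ht.trans ?_, ?_⟩
  · rw [pow_mul]
    exact Nat.pow_le_pow_left (by nlinarith) k
  · have e : decide (Foldable z) = decideFold (coords z) := by
      rw [Bool.eq_iff_iff, decide_eq_true_iff]
      exact (decideFold_iff hz).symm
    rw [e]
    exact h2

end Pool.Agent.MP33
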