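import Pool.Agent.Work.MP_33efdc_lc.Bd.B02

/-!
# The uniqueness lemma for real positions
-/

set_option autoImplicit false

namespace Pool.Agent.MP33

open Real Finset

/-- Positions moved by `ψ`. -/
def PD.map (D : PD ℝ) (ψ : ℝ → ℤ) : PD ℤ := ⟨D.n, fun i => ψ (D.v i), D.al⟩

/-- The positions of the vertices. -/
noncomputable def verts (D : PD ℝ) : Finset ℝ := (range (D.n + 1)).image D.v

theorem mem_verts (D : PD ℝ) {i : ℕ} (h : i ≤ D.n) : D.v i ∈ verts D :=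
  Finset.mem_image_of_mem _ (Finset.mem_range.2 (by omega))

section good

variable {S : Finset ℝ} {ψ : ℝ → ℤ} (hg : Good S ψ)
include hg

theorem Good.le {a b : ℝ} (ha : a ∈ S) (hb : b ∈ S) (h : a ≤ b) : ψ a ≤ ψ b := by
  rcases eq_or_lt_of_le h with rfl | h
  · exact le_refl _
  · exact (hg.1 a ha b hb h).le

theorem Good.lt_iff {a b : ℝ} (ha : a ∈ S) (hb : b ∈ S) : ψ a < ψ b ↔ a < b := by
  constructor
  · intro h
    by_contra hc
    exact absurd (hg.le hb ha (not_lt.1 hc)) (not_le.2 h)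
  · exact hg.1 a ha b hb

theorem Good.le_iff {a b : ℝ} (ha : a ∈ S) (hb : b ∈ S) : ψ a ≤ ψ b ↔ a ≤ b := by
  rw [← not_lt, ← not_lt, hg.lt_iff hb ha]

theorem Good.eq_iff {a b : ℝ} (ha : a ∈ S) (hb : b ∈ S) : ψ a = ψ b ↔ a = b := by
  constructor
  · intro h
    exact le_antisymm ((hg.le_iff ha hb).1 h.le) ((hg.le_iff hb ha).1 h.ge)
  · rintro rfl; rfl

theorem Good.pos {s : ℝ} (h0 : (0 : ℝ) ∈ S) (hs : s ∈ S) (h : 0 < s) : 0 < ψ s := by
  have h1 := hg.2 0 h0 0 h0 0 h0 (add_zero 0)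
  have h2 := hg.1 0 h0 s hs h
  omega

theorem Good.flat {D : PD ℝ} (hv : verts D ⊆ S) {x y : ℝ} (hx : x ∈ S) (hy : y ∈ S)
    (h : D.flat x y) : (D.map ψ).flat (ψ x) (ψ y) := by
  intro i hi
  have hm := hv (mem_verts D hi)
  rcases h i hi with h | h
  · exact Or.inl (hg.le hm hx h)
  · exact Or.inr (hg.le hy hm h)

theorem Good.ang {D : PD ℝ} (hv : verts D ⊆ S) {x : ℝ} (hx : x ∈ S) :
    (D.map ψ).ang (ψ x) = D.ang x := by
  have e : (fun i => i ≤ (D.map ψ).n ∧ (D.map ψ).v i = ψ x) = (fun i => i ≤ D.n ∧ D.v i = x) := by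
    funext i
    refine propext ⟨fun h => ⟨h.1, (hg.eq_iff (hv (mem_verts D h.1)) hx).1 h.2⟩,
      fun h => ⟨h.1, (hg.eq_iff (hv (mem_verts D h.1)) hx).2 h.2⟩⟩
  unfold PD.ang
  have key : ∀ (P Q : ℕ → Prop) (d1 : Decidable (∃ i, P i)) (d2 : Decidable (∃ i, Q i)),
      P = Q → ∀ al : ℕ → ℝ,
      (@dite ℝ (∃ i, P i) d1 (fun h => al h.choose) (fun _ => π)) =
      (@dite ℝ (∃ i, Q i) d2 (fun h => al h.choose) (fun _ => π)) := by
    rintro P Q d1 d2 rfl al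
    rw [Subsingleton.elim d1 d2]
  exact key _ _ _ _ e D.al

end good

theorem Nd.transfer {D : PD ℝ} {p q : ℝ} {θ : ℝ} (h : Nd D p q θ) :
    ∃ S : Finset ℝ, ∀ ψ, Good S ψ → Nd (D.map ψ) (ψ p) (ψ q) θ := by
  classical
  induction h with
  | single p =>
    refine ⟨verts D ∪ {p}, fun ψ hg => ?_⟩
    have := Nd.single (D := D.map ψ) (ψ p)
    rwa [hg.ang Finset.subset_union_left (by simp)] at this
  | @snoc p q s r θ θ' _ hs f1 _ hθ f2 ih1 ih2 =>
    obtain ⟨S1, h1⟩ := ih1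
    obtain ⟨S2, h2⟩ := ih2
    refine ⟨S1 ∪ S2 ∪ verts D ∪ {0, s, q, q + s, r, r + s}, fun ψ hg => ?_⟩
    have hv : verts D ⊆ S1 ∪ S2 ∪ verts D ∪ {0, s, q, q + s, r, r + s} := by
      intro x hx; simp [hx]
    have g1 := h1 ψ (hg.mono (by intro x hx; simp [hx]))
    have g2 := h2 ψ (hg.mono (by intro x hx; simp [hx]))
    have a1 : ψ q + ψ s = ψ (q + s) := hg.2 q (by simp) s (by simp) (q + s) (by simp) rfl
    have a2 : ψ r + ψ s = ψ (r + s) := hg.2 r (by simp) s (by simp) (r + s) (by simp) rfl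
    have a3 := hg.pos (by simp) (by simp) hs
    have a4 := hg.flat hv (by simp) (by simp) f1
    have a5 := hg.flat hv (by simp) (by simp) f2
    rw [← a1] at a4 g2
    rw [← a2] at a5
    have := g1.snoc a3 a4 g2 hθ a5
    rwa [a2, hg.ang hv (by simp)] at this

theorem Strip.transfer {D : PD ℝ} {x0 y0 p q : ℝ} (h : Strip D x0 y0 p q) :
    ∃ S : Finset ℝ, ∀ ψ, Good S ψ → Strip (D.map ψ) (ψ x0) (ψ y0) (ψ p) (ψ q) := by
  classical
  induction h with
  | base => exact ⟨∅, fun ψ _ => .base⟩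
  | @step p q l r s θ1 θ2 _ hn1 hn2 hθ hs f1 f2 ih =>
    obtain ⟨S0, h0⟩ := ih
    obtain ⟨S1, h1⟩ := hn1.transfer
    obtain ⟨S2, h2⟩ := hn2.transfer
    refine ⟨S0 ∪ S1 ∪ S2 ∪ verts D ∪ {0, s, l, l - s, r, r + s}, fun ψ hg => ?_⟩
    have hv : verts D ⊆ S0 ∪ S1 ∪ S2 ∪ verts D ∪ {0, s, l, l - s, r, r + s} := by
      intro x hx; simp [hx]
    have g0 := h0 ψ (hg.mono (by intro x hx; simp [hx]))
    have g1 := h1 ψ (hg.mono (by intro x hx; simp [hx]))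
    have g2 := h2 ψ (hg.mono (by intro x hx; simp [hx]))
    have a1 : ψ (l - s) + ψ s = ψ l := hg.2 (l - s) (by simp) s (by simp) l (by simp) (by ring)
    have a2 : ψ r + ψ s = ψ (r + s) := hg.2 r (by simp) s (by simp) (r + s) (by simp) rfl
    have a3 := hg.pos (by simp) (by simp) hs
    have a4 := hg.flat hv (by simp) (by simp) f1
    have a5 := hg.flat hv (by simp) (by simp) f2
    have a1' : ψ (l - s) = ψ l - ψ s := by omega
    rw [a1'] at a4
    rw [← a2] at a5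
    have := g0.step g1 g2 hθ a3 a4 a5
    rwa [a2, ← a1'] at this

open Classical in
/-- The sum of the turning angles of the vertices in a strip. -/
noncomputable def PD.T (D : PD ℝ) (x0 y0 p q : ℝ) : ℝ :=
  ∑ i ∈ (range (D.n + 1)).filter (fun i => (p < D.v i ∧ D.v i ≤ x0) ∨ (y0 ≤ D.v i ∧ D.v i < q)),
    (π - D.al i)

theorem ang_vert {D : PD ℤ} (hD : D.Mono) {i : ℕ} (hi : i ≤ D.n) : D.ang (D.v i) = D.al i := by
  unfold PD.ang
  have h : ∃ j, j ≤ D.n ∧ D.v j = D.v i := ⟨i, hi, rfl⟩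
  rw [dif_pos h]
  obtain ⟨h1, h2⟩ := h.choose_spec
  congr 1
  rcases lt_trichotomy h.choose i with h3 | h3 | h3
  · have := hD _ _ h3 hi; omega
  · exact h3
  · have := hD _ _ h3 h1; omega

theorem tau_eq {D : PD ℤ} (hD : D.Mono) (s : Finset ℤ) :
    tau D s = ∑ i ∈ (range (D.n + 1)).filter (fun i => D.v i ∈ s), (π - D.al i) := by
  have hinj : Set.InjOn D.v ((range (D.n + 1)).filter (fun i => D.v i ∈ s) : Finset ℕ) := by
    intro i hi j hj hij
    simp only [Finset.coe_filter, Finset.mem_range, Set.mem_ofPred_eq] at hi hj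
    rcases lt_trichotomy i j with h3 | h3 | h3
    · have := hD _ _ h3 (by omega); omega
    · exact h3
    · have := hD _ _ h3 (by omega); omega
  have e1 : ∑ i ∈ (range (D.n + 1)).filter (fun i => D.v i ∈ s), (π - D.al i) =
      ∑ j ∈ ((range (D.n + 1)).filter (fun i => D.v i ∈ s)).image D.v, (π - D.ang j) := by
    rw [Finset.sum_image hinj]
    refine Finset.sum_congr rfl (fun i hi => ?_)
    rw [Finset.mem_filter, Finset.mem_range] at hi
    rw [ang_vert hD (by omega)]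
  rw [e1]
  symm
  refine Finset.sum_subset ?_ ?_
  · intro j hj
    obtain ⟨i, hi, rfl⟩ := Finset.mem_image.1 hj
    exact (Finset.mem_filter.1 hi).2
  · intro j hj hj'
    unfold PD.ang
    rw [dif_neg, sub_self]
    rintro ⟨i, hi, rfl⟩
    exact hj' (Finset.mem_image_of_mem _ (Finset.mem_filter.2 ⟨Finset.mem_range.2 (by omega), hj⟩))

theorem Good.map_mono {D : PD ℝ} {S : Finset ℝ} {ψ : ℝ → ℤ} (hg : Good S ψ) (hv : verts D ⊆ S)
    (hD : D.Mono) : (D.map ψ).Mono := by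
  intro i j hij hj
  have hj' : j ≤ D.n := hj
  exact hg.1 _ (hv (mem_verts D (by omega))) _ (hv (mem_verts D hj')) (hD i j hij hj')

theorem Good.tau {D : PD ℝ} {S : Finset ℝ} {ψ : ℝ → ℤ} (hg : Good S ψ) (hv : verts D ⊆ S)
    (hD : D.Mono) {x0 y0 p q : ℝ} (h1 : x0 ∈ S) (h2 : y0 ∈ S) (h3 : p ∈ S) (h4 : q ∈ S) :
    tau (D.map ψ) (pts (ψ x0) (ψ y0) (ψ p) (ψ q)) = D.T x0 y0 p q := by
  classical
  rw [tau_eq (hg.map_mono hv hD)]
  unfold PD.T
  refine Finset.sum_congr ?_ (fun _ _ => rfl)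
  ext i
  rw [Finset.mem_filter, Finset.mem_filter]
  refine and_congr_right (fun hi => ?_)
  have hi' : i ≤ D.n := by
    have : i < (D.map ψ).n + 1 := Finset.mem_range.1 hi
    exact Nat.lt_succ_iff.1 this
  have hm := hv (mem_verts D hi')
  show ψ (D.v i) ∈ pts _ _ _ _ ↔ _
  unfold pts
  rw [Finset.mem_union, Finset.mem_Ioc, Finset.mem_Ico, hg.lt_iff h3 hm, hg.le_iff hm h1,
    hg.le_iff h2 hm, hg.lt_iff hm h4]

theorem strip_unique_right {D : PD ℝ} (hD : D.Mono) {x0 y0 u y1 y2 : ℝ} (h0 : x0 < y0)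
    (h1 : Strip D x0 y0 u y1) (h2 : Strip D x0 y0 u y2) (hlt : y1 < y2)
    (hf : ∀ i ≤ D.n, D.v i < y1 ∨ y2 ≤ D.v i) (K1 : D.T x0 y0 u y1 < π)
    (K2 : D.T x0 y0 u y2 < π) : False := by
  classical
  obtain ⟨S1, t1⟩ := h1.transfer
  obtain ⟨S2, t2⟩ := h2.transfer
  obtain ⟨ψ, hev, hg⟩ := exists_good (S1 ∪ S2 ∪ verts D ∪ {x0, y0, u, y1, y2})
  have hv : verts D ⊆ S1 ∪ S2 ∪ verts D ∪ {x0, y0, u, y1, y2} := by intro x hx; simp [hx]
  have g1 := t1 ψ (hg.mono (by intro x hx; simp [hx]))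
  have g2 := t2 ψ (hg.mono (by intro x hx; simp [hx]))
  refine int_contra_right (D := D.map ψ) (hg.1 x0 (by simp) y0 (by simp) h0) ?_ g1 g2
    (hg.1 y1 (by simp) y2 (by simp) hlt) ?_ ?_ ?_
  · exact (hev y0).sub (hev x0)
  · intro j hj1 hj2
    unfold PD.ang
    rw [dif_neg]
    rintro ⟨i, hi, rfl⟩
    have hi' : i ≤ D.n := hi
    have hm := hv (mem_verts D hi')
    change ψ y1 ≤ ψ (D.v i) at hj1
    change ψ (D.v i) < ψ y2 at hj2
    rw [hg.le_iff (by simp) hm] at hj1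
    rw [hg.lt_iff hm (by simp)] at hj2
    rcases hf i hi' with h | h <;> linarith
  · rw [hg.tau hv hD (by simp) (by simp) (by simp) (by simp)]; exact K1
  · rw [hg.tau hv hD (by simp) (by simp) (by simp) (by simp)]; exact K2

theorem strip_unique_left {D : PD ℝ} (hD : D.Mono) {x0 y0 u1 u2 y : ℝ} (h0 : x0 < y0)
    (h1 : Strip D x0 y0 u1 y) (h2 : Strip D x0 y0 u2 y) (hlt : u1 < u2)
    (hf : ∀ i ≤ D.n, D.v i ≤ u1 ∨ u2 < D.v i) (K1 : D.T x0 y0 u1 y < π)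
    (K2 : D.T x0 y0 u2 y < π) : False := by
  classical
  obtain ⟨S1, t1⟩ := h1.transfer
  obtain ⟨S2, t2⟩ := h2.transfer
  obtain ⟨ψ, hev, hg⟩ := exists_good (S1 ∪ S2 ∪ verts D ∪ {x0, y0, u1, u2, y})
  have hv : verts D ⊆ S1 ∪ S2 ∪ verts D ∪ {x0, y0, u1, u2, y} := by intro x hx; simp [hx]
  have g1 := t1 ψ (hg.mono (by intro x hx; simp [hx]))
  have g2 := t2 ψ (hg.mono (by intro x hx; simp [hx]))
  refine int_contra_left (D := D.map ψ) (hg.1 x0 (by simp) y0 (by simp) h0) ?_ g1 g2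
    (hg.1 u1 (by simp) u2 (by simp) hlt) ?_ ?_ ?_
  · exact (hev y0).sub (hev x0)
  · intro j hj1 hj2
    unfold PD.ang
    rw [dif_neg]
    rintro ⟨i, hi, rfl⟩
    have hi' : i ≤ D.n := hi
    have hm := hv (mem_verts D hi')
    change ψ u1 < ψ (D.v i) at hj1
    change ψ (D.v i) ≤ ψ u2 at hj2
    rw [hg.lt_iff (by simp) hm] at hj1
    rw [hg.le_iff hm (by simp)] at hj2
    rcases hf i hi' with h | h <;> linarith
  · rw [hg.tau hv hD (by simp) (by simp) (by simp) (by simp)]; exact K1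
  · rw [hg.tau hv hD (by simp) (by simp) (by simp) (by simp)]; exact K2

end Pool.Agent.MP33
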